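import Pool.Agent.HUK.StmtsA

set_option autoImplicit false

namespace Pool.Agent.HUK

open NumberField

theorem nhb : NhbStmt := by
  intro K _ _ a
  have h1 := Algebra.norm_eq_prod_embeddings ℚ ℂ (a : K)
  have h2 : ((Algebra.norm ℤ a : ℤ) : ℚ) = Algebra.norm ℚ (a : K) := Algebra.coe_norm_int a
  have h3 : ‖algebraMap ℚ ℂ (Algebra.norm ℚ (a : K))‖ = |((Algebra.norm ℤ a : ℤ) : ℝ)| := by
    rw [← h2]
    simp
  have h4 : |((Algebra.norm ℤ a : ℤ) : ℝ)| = ∏ σ : K →ₐ[ℚ] ℂ, ‖σ (a : K)‖ := by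
    rw [← h3, h1, norm_prod]
  rw [h4]
  have h5 : ∏ σ : K →ₐ[ℚ] ℂ, ‖σ (a : K)‖ ≤ ∏ _σ : K →ₐ[ℚ] ℂ, house (a : K) :=
    Finset.prod_le_prod (fun σ _ => norm_nonneg _)
      (fun σ _ => norm_embedding_le_house (a : K) (σ : K →+* ℂ))
  refine h5.trans (le_of_eq ?_)
  rw [Finset.prod_const, Finset.card_univ, AlgHom.card]

end Pool.Agent.HUK
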