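import Pool.Agent.HUK.Stmts
import Pool.Agent.Helper52_HIK.RTB

set_option autoImplicit false

namespace Pool.Agent.HUK.H22

open Polynomial NumberField

variable {K : Type} [Field K] [NumberField K]

theorem house_eval_le (p : (𝓞 K)[X]) (G H : ℕ) (hG : p.natDegree ≤ G)
    (hH : ∀ i, house ((p.coeff i : 𝓞 K) : K) ≤ H) (a : 𝓞 K) (T : ℕ) (hT : 1 ≤ T)
    (ha : house (a : K) ≤ T) :
    house ((p.eval a : 𝓞 K) : K) ≤ ((G : ℝ) + 1) * H * (T : ℝ) ^ G := by
  have hT' : (1 : ℝ) ≤ T := by exact_mod_cast hT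
  rw [eval_eq_sum_range]
  have h1 : ((∑ i ∈ Finset.range (p.natDegree + 1), p.coeff i * a ^ i : 𝓞 K) : K) =
      ∑ i ∈ Finset.range (p.natDegree + 1), ((p.coeff i : 𝓞 K) : K) * (a : K) ^ i := by
    push_cast
    rfl
  rw [h1]
  refine (house_sum_le_sum_house _ _).trans ?_
  have h2 : ∀ i ∈ Finset.range (p.natDegree + 1),
      house (((p.coeff i : 𝓞 K) : K) * (a : K) ^ i) ≤ H * (T : ℝ) ^ G := by
    intro i hi
    rw [Finset.mem_range] at hi
    refine (house_mul_le _ _).trans ?_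
    refine mul_le_mul (hH i) ?_ (house_nonneg _) (Nat.cast_nonneg _)
    refine (house_pow_le _ _).trans ?_
    refine (pow_le_pow_left₀ (house_nonneg _) ha i).trans ?_
    exact pow_le_pow_right₀ hT' (by omega)
  refine (Finset.sum_le_sum h2).trans ?_
  rw [Finset.sum_const, Finset.card_range, nsmul_eq_mul]
  have h3 : ((p.natDegree + 1 : ℕ) : ℝ) ≤ (G : ℝ) + 1 := by
    push_cast
    have : (p.natDegree : ℝ) ≤ G := by exact_mod_cast hG
    linarith
  have h4 : (0 : ℝ) ≤ H * (T : ℝ) ^ G := by positivity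
  calc _ ≤ ((G : ℝ) + 1) * (H * (T : ℝ) ^ G) := mul_le_mul_of_nonneg_right h3 h4
    _ = _ := by ring

end Pool.Agent.HUK.H22

namespace Pool.Agent.HUK

open Polynomial NumberField

theorem rtu : RtuStmt := by
  intro D G H
  refine ⟨1 + D * (G + 1) * H, ?_⟩
  intro K _ _ g hm hD hG hH T hT a y ha hy
  have hT' : (1 : ℝ) ≤ T := by exact_mod_cast hT
  have hTG : (1 : ℝ) ≤ (T : ℝ) ^ G := one_le_pow₀ hT'
  unfold house
  refine (pi_norm_le_iff_of_nonneg (by positivity)).mpr fun σ => ?_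
  rw [canonicalEmbedding.apply_at]
  set ψ : 𝓞 K →+* ℂ := σ.comp (algebraMap (𝓞 K) K) with hψ
  have hy' : (g.map (evalRingHom a)).eval y = 0 := by
    rw [map_evalRingHom_eval]
    exact hy
  have hmon : ((g.map (evalRingHom a)).map ψ).Monic := (hm.map _).map _
  have hroot : ((g.map (evalRingHom a)).map ψ).eval (ψ y) = 0 := by
    rw [eval_map_apply, hy', map_zero]
  have hdeg : ((g.map (evalRingHom a)).map ψ).natDegree = g.natDegree := by
    rw [(hm.map _).natDegree_map, hm.natDegree_map]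
  have h1 := Pool.Agent.HIK.H52.norm_root_le _ hmon _ hroot
  rw [hdeg] at h1
  have h2 : ∀ k ∈ Finset.range g.natDegree, ‖((g.map (evalRingHom a)).map ψ).coeff k‖ ≤
      ((G : ℝ) + 1) * H * (T : ℝ) ^ G := by
    intro k hk
    rw [coeff_map, coeff_map, coe_evalRingHom]
    refine (norm_embedding_le_house (((g.coeff k).eval a : 𝓞 K) : K) σ).trans ?_
    exact H22.house_eval_le _ G H (hG k) (hH k) _ _ hT ha
  have h3 := Finset.sum_le_sum h2
  rw [Finset.sum_const, Finset.card_range, nsmul_eq_mul] at h3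
  have h4 : (g.natDegree : ℝ) ≤ D := by exact_mod_cast hD
  have h5 : (g.natDegree : ℝ) * (((G : ℝ) + 1) * H * (T : ℝ) ^ G) ≤
      D * (((G : ℝ) + 1) * H * (T : ℝ) ^ G) := mul_le_mul_of_nonneg_right h4 (by positivity)
  have h6 : ‖σ (y : K)‖ = ‖ψ y‖ := rfl
  rw [h6]
  push_cast
  nlinarith [h1, h3, h5, hTG]

end Pool.Agent.HUK
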